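import Pool.Agent.Helper45.FG.St2

/-!
# Project FG, module GAQ: the gap inequality
-/

set_option autoImplicit false

namespace Pool.Agent.Helper28.FG

open Pool.Agent.Helper45.FG
open scoped BigOperators

section

variable {I : Type} [Fintype I]

private lemma N_one_left [DecidableEq I] (R : FusionRing I) (m c : I) :
    R.N m c R.one = if m = R.dual c then 1 else 0 := by
  split_ifs with h
  · subst h
    have := R.dual_self (R.dual c)
    rwa [R.dual_dual] at this
  · refine R.dual_ne m c ?_
    intro h'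
    apply h
    rw [h', R.dual_dual]

private lemma cyc (R : FusionRing I) (a b c : I) :
    R.N a b (R.dual c) = R.N b c (R.dual a) := by
  classical
  have h := R.assoc a b c R.one
  have h1 : ∑ m, R.N a b m * R.N m c R.one = R.N a b (R.dual c) := by
    simp_rw [N_one_left R _ c]
    simp
  have h2 : ∑ m, R.N b c m * R.N a m R.one = R.N b c (R.dual a) := by
    have e : ∀ m, R.N a m R.one = if m = R.dual a then 1 else 0 := by
      intro m
      rw [N_one_left]
      by_cases hm : m = R.dual a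
      · rw [if_pos hm, if_pos]
        rw [hm, R.dual_dual]
      · rw [if_neg hm, if_neg]
        intro h'
        apply hm
        rw [h', R.dual_dual]
    simp_rw [e]
    simp
  rw [← h1, h, h2]

private lemma frob (R : FusionRing I) (i j k : I) : R.N i j k = R.N (R.dual i) k j := by
  rw [← R.dual_mul i j k, cyc R (R.dual j) (R.dual i) k, R.dual_dual]

private lemma d_dual (hFCH : StFCH) (R : FusionRing I) (d : I → ℝ) (hd : IsDim R d) (i : I) :
    d (R.dual i) = d i := by
  have key : ∀ i : I, d (R.dual i) ≤ d i := by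
    intro i
    have h := hFCH I R d hd (fun j => ((d (R.dual j) : ℝ) : ℂ)) (by
      intro a b
      have e := hd.mul (R.dual b) (R.dual a)
      have e2 : ∑ k, (R.N (R.dual b) (R.dual a) k : ℝ) * d k =
          ∑ k, (R.N a b k : ℝ) * d (R.dual k) := by
        have hinv : Function.Involutive R.dual := R.dual_dual
        rw [← Equiv.sum_comp (hinv.toPerm R.dual)]
        refine Finset.sum_congr rfl fun k _ => ?_
        simp only [Function.Involutive.coe_toPerm]
        rw [R.dual_mul]
      rw [e2, mul_comm] at e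
      have e3 := congrArg (fun x : ℝ => (x : ℂ)) e
      push_cast at e3
      exact e3) i
    rw [Complex.norm_real, Real.norm_eq_abs, abs_of_pos (hd.pos _)] at h
    exact h
  refine le_antisymm (key i) ?_
  have := key (R.dual i)
  rwa [R.dual_dual] at this

private lemma le_mul_of_N (hFCH : StFCH) (R : FusionRing I) (d : I → ℝ) (hd : IsDim R d)
    (i j k : I) (h : R.N i j k ≠ 0) : d i ≤ d j * d k := by
  have e : R.N i j k = R.N j (R.dual k) (R.dual i) := by
    rw [← cyc R i j (R.dual k), R.dual_dual]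
  have h1 : (1 : ℝ) ≤ (R.N j (R.dual k) (R.dual i) : ℝ) := by
    rw [← e]
    exact_mod_cast Nat.one_le_iff_ne_zero.2 h
  have h2 := hd.mul j (R.dual k)
  have h3 : (R.N j (R.dual k) (R.dual i) : ℝ) * d (R.dual i) ≤
      ∑ m, (R.N j (R.dual k) m : ℝ) * d m :=
    Finset.single_le_sum (f := fun m => (R.N j (R.dual k) m : ℝ) * d m)
      (fun m _ => mul_nonneg (Nat.cast_nonneg _) (hd.pos m).le) (Finset.mem_univ _)
  rw [d_dual hFCH R d hd k] at h2
  rw [d_dual hFCH R d hd i] at h3
  nlinarith [hd.pos i]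

private def gr (R : FusionRing I) (i : I) : SimpleGraph I where
  Adj a b := a ≠ b ∧ (R.N i a b ≠ 0 ∨ R.N i b a ≠ 0)
  symm := ⟨fun _ _ h => ⟨h.1.symm, h.2.symm⟩⟩
  loopless := ⟨fun _ h => h.1 rfl⟩

private lemma reach_iff (R : FusionRing I) (i j k : I) (h : R.N i j k ≠ 0) :
    (gr R i).Reachable R.one j ↔ (gr R i).Reachable R.one k := by
  by_cases hjk : j = k
  · rw [hjk]
  · have hadj : (gr R i).Adj j k := ⟨hjk, Or.inl h⟩
    exact ⟨fun h' => h'.trans hadj.reachable, fun h' => h'.trans hadj.symm.reachable⟩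

private lemma sum_zero (hFCH : StFCH) (R : FusionRing I) (d : I → ℝ) (hd : IsDim R d)
    (χ : I → ℂ) (hχ : ∀ i j, χ i * χ j = ∑ k, (R.N i j k : ℂ) * χ k) (i : I)
    (hi : χ i ≠ (d i : ℂ)) (ind : I → ℂ)
    (hind : ∀ j k, (R.N i j k : ℂ) * ind j = (R.N i j k : ℂ) * ind k) :
    ∑ j, ind j * (d j * χ j) = 0 := by
  have h1 : χ i * ∑ j, ind j * (d j * χ j) = d i * ∑ j, ind j * (d j * χ j) := by
    calc χ i * ∑ j, ind j * (d j * χ j)
        = ∑ j, ∑ k, ((R.N i j k : ℂ) * ind j) * (d j * χ k) := by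
          rw [Finset.mul_sum]
          refine Finset.sum_congr rfl fun j _ => ?_
          have e : χ i * (ind j * (d j * χ j)) = ind j * d j * (χ i * χ j) := by ring
          rw [e, hχ, Finset.mul_sum]
          refine Finset.sum_congr rfl fun k _ => ?_
          ring
      _ = ∑ j, ∑ k, ((R.N i j k : ℂ) * ind k) * (d j * χ k) := by
          refine Finset.sum_congr rfl fun j _ => Finset.sum_congr rfl fun k _ => ?_
          rw [hind]
      _ = ∑ k, ∑ j, ((R.N i j k : ℂ) * ind k) * (d j * χ k) := Finset.sum_comm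
      _ = ∑ k, ind k * χ k * (d i * d k) := by
          refine Finset.sum_congr rfl fun k _ => ?_
          have e := hd.mul (R.dual i) k
          rw [d_dual hFCH R d hd i] at e
          have e3 := congrArg (fun x : ℝ => (x : ℂ)) e
          push_cast at e3
          rw [e3, Finset.mul_sum]
          refine Finset.sum_congr rfl fun j _ => ?_
          rw [frob R i j k]
          ring
      _ = d i * ∑ j, ind j * (d j * χ j) := by
          rw [Finset.mul_sum]
          refine Finset.sum_congr rfl fun k _ => ?_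
          ring
  have h2 : (χ i - d i) * ∑ j, ind j * (d j * χ j) = 0 := by
    rw [sub_mul, h1, sub_self]
  rcases mul_eq_zero.1 h2 with h | h
  · exact absurd (sub_eq_zero.1 h) hi
  · exact h

private lemma energy (hFCH : StFCH) (R : FusionRing I) (d : I → ℝ) (hd : IsDim R d)
    (χ : I → ℂ) (hχ : ∀ i j, χ i * χ j = ∑ k, (R.N i j k : ℂ) * χ k) (i : I) :
    ∑ j, ∑ k, (R.N i j k : ℝ) * (d j * d k * Complex.normSq (χ j / d j - χ k / d k)) =
      2 * (d i - (χ i).re) * ∑ j, Complex.normSq (χ j) := by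
  have hterm : ∀ j k, (R.N i j k : ℝ) *
      (d j * d k * Complex.normSq (χ j / d j - χ k / d k)) =
      (Complex.normSq (χ j) / d j) * ((R.N i j k : ℝ) * d k) +
      (Complex.normSq (χ k) / d k) * ((R.N (R.dual i) k j : ℝ) * d j) -
      2 * ((starRingEnd ℂ) (χ j) * ((R.N i j k : ℂ) * χ k)).re := by
    intro j k
    have hj := (hd.pos j).ne'
    have hk := (hd.pos k).ne'
    rw [← frob R i j k, Complex.normSq_sub, Complex.normSq_div, Complex.normSq_div,
      Complex.normSq_ofReal, Complex.normSq_ofReal, map_div₀, Complex.conj_ofReal]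
    have e1 : (χ j / (d j : ℂ) * ((starRingEnd ℂ) (χ k) / (d k : ℂ))).re =
        ((starRingEnd ℂ) (χ j) * χ k).re / (d j * d k) := by
      have : χ j / (d j : ℂ) * ((starRingEnd ℂ) (χ k) / (d k : ℂ)) =
          (χ j * (starRingEnd ℂ) (χ k)) / ((d j * d k : ℝ) : ℂ) := by
        push_cast
        rw [div_mul_div_comm]
      rw [this, Complex.div_ofReal_re]
      congr 1
      simp only [Complex.mul_re, Complex.conj_re, Complex.conj_im]
      ring
    have e2 : ((starRingEnd ℂ) (χ j) * ((R.N i j k : ℂ) * χ k)).re =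
        (R.N i j k : ℝ) * ((starRingEnd ℂ) (χ j) * χ k).re := by
      have : (starRingEnd ℂ) (χ j) * ((R.N i j k : ℂ) * χ k) =
          ((R.N i j k : ℝ) : ℂ) * ((starRingEnd ℂ) (χ j) * χ k) := by
        push_cast
        ring
      rw [this, Complex.re_ofReal_mul]
    rw [e1, e2]
    field_simp
  simp_rw [hterm]
  simp_rw [Finset.sum_sub_distrib, Finset.sum_add_distrib]
  have s1 : ∑ j, ∑ k, (Complex.normSq (χ j) / d j) * ((R.N i j k : ℝ) * d k) =
      d i * ∑ j, Complex.normSq (χ j) := by
    rw [Finset.mul_sum]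
    refine Finset.sum_congr rfl fun j _ => ?_
    rw [← Finset.mul_sum, ← hd.mul i j]
    have hj := (hd.pos j).ne'
    field_simp
  have s2 : ∑ j, ∑ k, (Complex.normSq (χ k) / d k) * ((R.N (R.dual i) k j : ℝ) * d j) =
      d i * ∑ j, Complex.normSq (χ j) := by
    rw [Finset.sum_comm, Finset.mul_sum]
    refine Finset.sum_congr rfl fun k _ => ?_
    rw [← Finset.mul_sum, ← hd.mul (R.dual i) k, d_dual hFCH R d hd i]
    have hk := (hd.pos k).ne'
    field_simp
  have s3 : ∑ j, ∑ k, 2 * ((starRingEnd ℂ) (χ j) * ((R.N i j k : ℂ) * χ k)).re =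
      2 * (χ i).re * ∑ j, Complex.normSq (χ j) := by
    rw [Finset.mul_sum]
    refine Finset.sum_congr rfl fun j _ => ?_
    rw [← Finset.mul_sum, ← Complex.re_sum, ← Finset.mul_sum, ← hχ i j]
    have : (starRingEnd ℂ) (χ j) * (χ i * χ j) = χ i * ((Complex.normSq (χ j) : ℝ) : ℂ) := by
      rw [Complex.normSq_eq_conj_mul_self]
      ring
    rw [this, Complex.re_mul_ofReal]
    ring
  rw [s1, s2, s3]
  ring

end

theorem hGAQ (hFCH : StFCH) (hFIN : StFIN) : StGAQ := by
  intro I _ R d hd χ hχ1 hχ i hi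
  classical
  have hdom := hFCH I R d hd χ hχ
  have hone := (hFIN I R d hd).1
  set G := gr R i with hG
  -- a vertex with negative real part
  obtain ⟨j1, hj1, hneg⟩ : ∃ j1, G.Reachable R.one j1 ∧ (χ j1).re < 0 := by
    by_contra hcon
    push Not at hcon
    have h0 := sum_zero hFCH R d hd χ hχ i hi (fun j => if G.Reachable R.one j then 1 else 0) (by
      intro j k
      by_cases h : R.N i j k = 0
      · rw [h]
        simp
      · simp only [hG, reach_iff R i j k h])
    have h1 := congrArg Complex.re h0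
    rw [Complex.re_sum, Complex.zero_re] at h1
    have h2 : ∀ j, 0 ≤ ((if G.Reachable R.one j then (1 : ℂ) else 0) * (d j * χ j)).re := by
      intro j
      split_ifs with h
      · rw [one_mul, Complex.re_ofReal_mul]
        exact mul_nonneg (hd.pos j).le (hcon j h)
      · simp
    have h3 := Finset.single_le_sum (fun j _ => h2 j) (Finset.mem_univ R.one)
    rw [h1, if_pos (SimpleGraph.Reachable.refl _), hχ1, hone] at h3
    norm_num at h3
  -- a path
  obtain ⟨p, hp⟩ : ∃ p : G.Walk R.one j1, p.IsPath := by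
    obtain ⟨p⟩ := hj1
    exact ⟨p.toPath.1, p.toPath.2⟩
  set L := p.length with hL
  have hLc : L < Fintype.card I := hp.length_lt
  set v : ℕ → I := p.getVert with hv
  have hv0 : v 0 = R.one := p.getVert_zero
  have hvL : v L = j1 := p.getVert_length
  have hadj : ∀ m, m < L → G.Adj (v m) (v (m + 1)) := fun m hm => p.adj_getVert_succ hm
  have hinj : Set.InjOn v {m | m ≤ L} := hp.getVert_injOn
  set f : I → ℂ := fun j => χ j / d j with hf
  have hlow : 1 ≤ ‖f (v L) - f (v 0)‖ := by
    have h1 : (f (v 0) - f (v L)).re = 1 - (χ j1).re / d j1 := by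
      rw [hv0, hvL, hf]
      simp only
      rw [hχ1, hone, Complex.sub_re, Complex.div_ofReal_re]
      simp
    have h2 : (χ j1).re / d j1 < 0 := div_neg_of_neg_of_pos hneg (hd.pos _)
    rw [norm_sub_rev]
    have h3 := Complex.re_le_norm (f (v 0) - f (v L))
    linarith
  have hCS : 1 ≤ (L : ℝ) * ∑ m ∈ Finset.range L, Complex.normSq (f (v (m + 1)) - f (v m)) := by
    have h1 : f (v L) - f (v 0) = ∑ m ∈ Finset.range L, (f (v (m + 1)) - f (v m)) :=
      (Finset.sum_range_sub (fun m => f (v m)) L).symm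
    have h2 : ‖f (v L) - f (v 0)‖ ≤ ∑ m ∈ Finset.range L, ‖f (v (m + 1)) - f (v m)‖ := by
      rw [h1]
      exact norm_sum_le _ _
    have h3 := sq_sum_le_card_mul_sum_sq (s := Finset.range L)
      (f := fun m => ‖f (v (m + 1)) - f (v m)‖)
    rw [Finset.card_range] at h3
    have h4 : ∑ m ∈ Finset.range L, ‖f (v (m + 1)) - f (v m)‖ ^ 2 =
        ∑ m ∈ Finset.range L, Complex.normSq (f (v (m + 1)) - f (v m)) :=
      Finset.sum_congr rfl fun m _ => (Complex.normSq_eq_norm_sq _).symm
    rw [h4] at h3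
    have h5 : 1 ≤ ∑ m ∈ Finset.range L, ‖f (v (m + 1)) - f (v m)‖ := hlow.trans h2
    nlinarith
  -- the pairs
  set W : I × I → ℝ := fun q =>
    (R.N i q.1 q.2 : ℝ) * (d q.1 * d q.2 * Complex.normSq (f q.1 - f q.2)) with hW
  have hWn : ∀ q, 0 ≤ W q := fun q => mul_nonneg (Nat.cast_nonneg _)
    (mul_nonneg (mul_nonneg (hd.pos _).le (hd.pos _).le) (Complex.normSq_nonneg _))
  set e : ℕ → I × I := fun m => if R.N i (v m) (v (m + 1)) ≠ 0 then (v m, v (m + 1))
    else (v (m + 1), v m) with he
  have heW : ∀ m, m < L → d i * Complex.normSq (f (v (m + 1)) - f (v m)) ≤ W (e m) := by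
    intro m hm
    have hsq : Complex.normSq (f (v (m + 1)) - f (v m)) =
        Complex.normSq (f (v m) - f (v (m + 1))) := by
      rw [← neg_sub, Complex.normSq_neg]
    have gen : ∀ a b : I, R.N i a b ≠ 0 →
        d i * Complex.normSq (f a - f b) ≤ W (a, b) := by
      intro a b hab
      have h1 : (1 : ℝ) ≤ (R.N i a b : ℝ) := by exact_mod_cast Nat.one_le_iff_ne_zero.2 hab
      have h2 := le_mul_of_N hFCH R d hd i a b hab
      have h3 := Complex.normSq_nonneg (f a - f b)
      have h4 : 0 < d a * d b := mul_pos (hd.pos a) (hd.pos b)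
      simp only [hW]
      calc d i * Complex.normSq (f a - f b) ≤ d a * d b * Complex.normSq (f a - f b) :=
            mul_le_mul_of_nonneg_right h2 h3
        _ ≤ (R.N i a b : ℝ) * (d a * d b * Complex.normSq (f a - f b)) :=
            le_mul_of_one_le_left (mul_nonneg h4.le h3) h1
    simp only [he]
    split_ifs with h
    · rw [hsq]
      exact gen _ _ h
    · have h' := (hadj m hm).2.resolve_left h
      exact gen _ _ h'
  have heinj : Set.InjOn e (Finset.range L : Set ℕ) := by
    intro m hm m' hm' hmm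
    have hm1 : m < L := by simpa using hm
    have hm1' : m' < L := by simpa using hm'
    have a1 : m ∈ {m | m ≤ L} := hm1.le
    have a2 : m + 1 ∈ {m | m ≤ L} := hm1
    have b1 : m' ∈ {m | m ≤ L} := hm1'.le
    have b2 : m' + 1 ∈ {m | m ≤ L} := hm1'
    simp only [he] at hmm
    split_ifs at hmm with h1 h2 h2
    · exact hinj a1 b1 (Prod.ext_iff.1 hmm).1
    · have c1 := hinj a1 b2 (Prod.ext_iff.1 hmm).1
      have c2 := hinj a2 b1 (Prod.ext_iff.1 hmm).2
      omega
    · have c1 := hinj a2 b1 (Prod.ext_iff.1 hmm).1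
      have c2 := hinj a1 b2 (Prod.ext_iff.1 hmm).2
      omega
    · exact hinj a1 b1 (Prod.ext_iff.1 hmm).2
  have hsumW : d i * ∑ m ∈ Finset.range L, Complex.normSq (f (v (m + 1)) - f (v m)) ≤
      ∑ q, W q := by
    rw [Finset.mul_sum]
    calc ∑ m ∈ Finset.range L, d i * Complex.normSq (f (v (m + 1)) - f (v m))
        ≤ ∑ m ∈ Finset.range L, W (e m) :=
          Finset.sum_le_sum fun m hm => heW m (Finset.mem_range.1 hm)
      _ = ∑ q ∈ (Finset.range L).image e, W q := (Finset.sum_image heinj).symm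
      _ ≤ ∑ q, W q := Finset.sum_le_univ_sum_of_nonneg hWn
  have hE : ∑ q, W q = 2 * (d i - (χ i).re) * ∑ j, Complex.normSq (χ j) := by
    rw [Fintype.sum_prod_type]
    exact energy hFCH R d hd χ hχ i
  have hre : (χ i).re ≤ d i := (Complex.re_le_norm _).trans (hdom i)
  have hF : ∑ j, Complex.normSq (χ j) ≤ ∑ j, d j ^ 2 := by
    refine Finset.sum_le_sum fun j _ => ?_
    rw [Complex.normSq_eq_norm_sq]
    exact pow_le_pow_left₀ (norm_nonneg _) (hdom j) 2
  have hc : (L : ℝ) ≤ (Fintype.card I : ℝ) := by exact_mod_cast hLc.le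
  set Q := ∑ m ∈ Finset.range L, Complex.normSq (f (v (m + 1)) - f (v m)) with hQ
  have hQ0 : 0 ≤ Q := Finset.sum_nonneg fun m _ => Complex.normSq_nonneg _
  have hdQ : d i * Q ≤ 2 * (d i - (χ i).re) * ∑ j, d j ^ 2 := by
    refine hsumW.trans ?_
    rw [hE]
    exact mul_le_mul_of_nonneg_left hF (by linarith)
  have hLQ : d i ≤ (Fintype.card I : ℝ) * (d i * Q) := by
    have h1 : 1 ≤ (Fintype.card I : ℝ) * Q := hCS.trans (mul_le_mul_of_nonneg_right hc hQ0)
    nlinarith [hd.pos i]
  calc d i ≤ (Fintype.card I : ℝ) * (d i * Q) := hLQ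
    _ ≤ (Fintype.card I : ℝ) * (2 * (d i - (χ i).re) * ∑ j, d j ^ 2) :=
        mul_le_mul_of_nonneg_left hdQ (Nat.cast_nonneg _)
    _ = 2 * (d i - (χ i).re) * (∑ j, d j ^ 2) * (Fintype.card I : ℝ) := by ring

end Pool.Agent.Helper28.FG
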